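import Pool.Agent.Y407.C.BadReal
import Pool.Agent.Y232.CS.Bad
import Pool.Agent.Run7.h443.HC.Main

/-!
# Rational points outside thin sets on 100% of the smooth Fano cyclic covers of `ℙⁿ`, `n ≥ 2`

Let `n ≥ 2`, `m ≥ 2`, `k ≥ 1` and `m k ≤ n + k`. For a form `F` of degree `m k` in `x_0, …, x_n`
with integral coefficients let `X_F` be the cyclic cover `w ^ m = F(x_0, …, x_n)` of `ℙⁿ`, a
hypersurface of degree `m k` in the weighted projective space `ℙ(1, …, 1, k)`. If the branch divisor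
`F = 0` is smooth then `X_F` is a smooth Fano variety of dimension `n`; so it is algebraically
simply connected. Among the `F` with coefficients bounded by `H` with smooth branch divisor for
which `X_F` has points over the real numbers and over all the `p`-adic fields, a proportion tending
to `1` as `H → ∞` has rational points outside all the thin subsets of `ℙ(1, …, 1, k)(ℚ)` of
complexity at most `N(H)`, where `N(H) → ∞`; these points can even be chosen within `1 / N(H)` of
arbitrary points of `X_F` over the real numbers and over the `p`-adic fields with `p ≤ N(H)`. In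
particular, for a given thin subset of `ℙ(1, …, 1, k)(ℚ)`, 100% of the `X_F` have rational points
outside this thin set. Examples are the del Pezzo surfaces of degree 2 (`w ^ 2 = F_4(x, y, z)`),
the cyclic cubic surfaces `w ^ 3 = F_3(x, y, z)`, the quartic and the sextic double solids.
-/

set_option autoImplicit false

namespace Pool.Agent.Results.MP_87f965_ag.FanoCyclicCoversHilbert

open Polynomial Filter Topology

/-- The forms of degree `D` in `x_0, …, x_n` whose coefficients are integers of absolute value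
at most `H`. -/
def Forms (n D H : ℕ) : Set (MvPolynomial (Fin (n + 1)) ℤ) :=
  {F | F.IsHomogeneous D ∧ ∀ a, |F.coeff a| ≤ (H : ℤ)}

/-- The hypersurface `F = 0` in `ℙⁿ` is smooth: at every zero over a field of characteristic zero
some partial derivative does not vanish. -/
def Smooth {n : ℕ} (F : MvPolynomial (Fin (n + 1)) ℤ) : Prop :=
  ∀ (K : Type) [Field K] [CharZero K] (x : Fin (n + 1) → K), x ≠ 0 →
    MvPolynomial.aeval x F = 0 → ∃ i, MvPolynomial.aeval x (MvPolynomial.pderiv i F) ≠ 0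

/-- The cyclic cover `w ^ m = F(x)` of `ℙⁿ` has a point over the field `K`. -/
def HasPoint {n : ℕ} (m : ℕ) (F : MvPolynomial (Fin (n + 1)) ℤ) (K : Type) [Field K] : Prop :=
  ∃ (x : Fin (n + 1) → K) (w : K), x ≠ 0 ∧ w ^ m = MvPolynomial.aeval x F

/-- The cyclic cover has points over the real numbers and over all the `p`-adic fields. -/
def LocallySoluble {n : ℕ} (m : ℕ) (F : MvPolynomial (Fin (n + 1)) ℤ) : Prop :=
  HasPoint m F ℝ ∧ ∀ (p : ℕ) [Fact p.Prime], HasPoint m F ℚ_[p]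

/-- The polynomials `P(w, x; t)` in `t` whose coefficients are weighted homogeneous polynomials of
one and the same degree in `w` (the variable with the index `0`, of weight `k`) and `x_0, …, x_n`
(the variables with the indices `1, …, n + 1`, of weight `1`), with integral coefficients, and which
have no root `t` in the field of rational functions `ℚ(w, x_0, …, x_n)`. Whether the rational
polynomial `P(w, x; t)` has a rational root `t` only depends on the point `(x : w)` of
`ℙ(1, …, 1, k)`, and the sets of the rational points with this property, and their subsets, are the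
thin subsets of `ℙ(1, …, 1, k)(ℚ)`. -/
def Covers (n k : ℕ) : Set (MvPolynomial (Fin (n + 2)) ℤ)[X] :=
  {P | (∃ D, ∀ j, (P.coeff j).IsWeightedHomogeneous (Fin.cons k (fun _ => 1) : Fin (n + 2) → ℕ) D) ∧
    ∀ r : FractionRing (MvPolynomial (Fin (n + 2)) ℤ), aeval r P ≠ 0}

/-- The polynomials `P ∈ Covers n k` of complexity at most `N`: the degree of `P` in `t`, the degree
of `P` in `w, x_0, …, x_n` and the absolute values of the integral coefficients are at most `N`. -/
def BoundedCovers (n k N : ℕ) : Set (MvPolynomial (Fin (n + 2)) ℤ)[X] :=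
  {P | P ∈ Covers n k ∧ P.natDegree ≤ N ∧ ∀ j, (P.coeff j).totalDegree ≤ N ∧
    ∀ u, |(P.coeff j).coeff u| ≤ (N : ℤ)}

/-- The value of `P` at the rational point `(x : w)` and the rational number `t`. -/
noncomputable def value {n : ℕ} (P : (MvPolynomial (Fin (n + 2)) ℤ)[X]) (x : Fin (n + 1) → ℚ)
    (w t : ℚ) : ℚ :=
  P.eval₂ (MvPolynomial.eval₂Hom (Int.castRingHom ℚ) (Fin.cons w x)) t

/-- Weak approximation for the cyclic cover `w ^ m = F(x)` of `ℙⁿ` (`F` of degree `m k` with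
coefficients of size `H`) with precision `1 / N` at the real place and at all the primes `p ≤ N`,
by rational points outside the thin sets of complexity at most `N`: for every family of points
`(z_p, v_p)` over the `p`-adic fields and every real point `(y, u)` there is a rational point
`(x, w)` such that `P(w, x; t)` has no rational root `t` for all `P ∈ BoundedCovers n k N` and such
that for all `p ≤ N` the coordinates `(c x, c ^ k w)` of this point, for a suitable `c ≠ 0` in
`ℚ_p`, satisfy `‖z_p - c x‖ ≤ ‖z_p‖ / N` and `‖v_p - c ^ k w‖ ≤ ‖z_p‖ ^ k / N`; and, for a suitable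
real `c ≠ 0`, `‖y - c x‖ ≤ ‖y‖ / N` and `|u - c ^ k w| ≤ H ^ (1 / m) ‖y‖ ^ k / N` (note that `|u|`
is at most of the size of `H ^ (1 / m) ‖y‖ ^ k`). -/
def ApproximationOutsideThinSets {n : ℕ} (m k N H : ℕ) (F : MvPolynomial (Fin (n + 1)) ℤ) : Prop :=
  ∀ (z : ∀ (p : ℕ) [Fact p.Prime], Fin (n + 1) → ℚ_[p]) (v : ∀ (p : ℕ) [Fact p.Prime], ℚ_[p])
    (y : Fin (n + 1) → ℝ) (u : ℝ),
    (∀ (p : ℕ) [Fact p.Prime], z p ≠ 0 ∧ v p ^ m = MvPolynomial.aeval (z p) F) → y ≠ 0 →
    u ^ m = MvPolynomial.aeval y F →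
    ∃ (x : Fin (n + 1) → ℚ) (w : ℚ), x ≠ 0 ∧ w ^ m = MvPolynomial.aeval x F ∧
      (∀ (p : ℕ) [Fact p.Prime], p ≤ N → ∃ c : ℚ_[p], c ≠ 0 ∧
        (∀ i, ‖z p i - c * (x i : ℚ_[p])‖ ≤ ‖z p‖ / N) ∧
        ‖v p - c ^ k * (w : ℚ_[p])‖ ≤ ‖z p‖ ^ k / N) ∧
      (∃ c : ℝ, c ≠ 0 ∧ (∀ i, |y i - c * (x i : ℝ)| ≤ ‖y‖ / N) ∧
        |u - c ^ k * (w : ℝ)| ≤ (H : ℝ) ^ (1 / (m : ℝ)) * ‖y‖ ^ k / N) ∧
      ∀ P ∈ BoundedCovers n k N, ∀ t : ℚ, value P x w t ≠ 0

/-- The cyclic cover `w ^ m = F(x)` has a rational point outside the thin set of `P`. -/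
def PointOutside {n : ℕ} (m : ℕ) (P : (MvPolynomial (Fin (n + 2)) ℤ)[X])
    (F : MvPolynomial (Fin (n + 1)) ℤ) : Prop :=
  ∃ (x : Fin (n + 1) → ℚ) (w : ℚ), x ≠ 0 ∧ w ^ m = MvPolynomial.aeval x F ∧
    ∀ t : ℚ, value P x w t ≠ 0

theorem smooth_iff {n : ℕ} (f : Fin 1 → MvPolynomial (Fin (n + 1)) ℤ) :
    Pool.Agent.Y697.C13.SmoothS f ↔ Smooth (f 0) := by
  constructor
  · intro h K _ _ x hx hF
    obtain ⟨i, hi⟩ := h K x (fun _ => 1) hx (by
      intro h0
      exact one_ne_zero (congrFun h0 0)) (by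
      intro j
      rw [Subsingleton.elim j 0]
      exact hF)
    refine ⟨i, ?_⟩
    rwa [Fin.sum_univ_one, one_mul] at hi
  · intro h K _ _ x l hx hl hF
    obtain ⟨i, hi⟩ := h K x hx (hF 0)
    refine ⟨i, ?_⟩
    rw [Fin.sum_univ_one]
    refine mul_ne_zero ?_ hi
    intro h0
    apply hl
    funext j
    rw [Subsingleton.elim j 0]
    exact h0

theorem ncard_iff {n D H : ℕ} {e : Fin 1 → ℕ} (he : ∀ j, e j + 2 = D)
    (P : (Fin 1 → MvPolynomial (Fin (n + 1)) ℤ) → Prop)
    (P' : MvPolynomial (Fin (n + 1)) ℤ → Prop) (hP : ∀ f, P f ↔ P' (f 0)) :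
    ({f : Fin 1 → MvPolynomial (Fin (n + 1)) ℤ | (∀ j, (f j).IsHomogeneous (e j + 2) ∧
      ∀ a, |(f j).coeff a| ≤ (H : ℤ)) ∧ P f} : Set _).ncard =
    ({F | F ∈ Forms n D H ∧ P' F} : Set _).ncard := by
  have hinj : Function.Injective (fun F : MvPolynomial (Fin (n + 1)) ℤ => fun _ : Fin 1 => F) :=
    fun F F' h => congrFun h 0
  rw [← Set.ncard_image_of_injective _ hinj]
  congr 1
  ext f
  simp only [Set.mem_ofPred_eq, Set.mem_image, Forms]
  constructor
  · rintro ⟨h1, h2⟩
    refine ⟨f 0, ⟨⟨?_, (h1 0).2⟩, (hP f).mp h2⟩, ?_⟩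
    · have := (h1 0).1
      rwa [he 0] at this
    · funext j
      rw [Subsingleton.elim j 0]
  · rintro ⟨F, ⟨⟨h1, h2⟩, h3⟩, rfl⟩
    refine ⟨fun j => ⟨?_, h2⟩, (hP _).mpr h3⟩
    rw [he j]
    exact h1

theorem rpow_iff {m : ℕ} (hm : 1 ≤ m) {a b N : ℝ} (ha : 0 ≤ a) (hb : 0 ≤ b) (hN : 0 < N) (H : ℕ) :
    (a * N) ^ m ≤ H * b ^ m ↔ a ≤ (H : ℝ) ^ (1 / (m : ℝ)) * b / N := by
  have h1 : ((H : ℝ) ^ (1 / (m : ℝ))) ^ m = H := by
    rw [one_div]
    exact Real.rpow_inv_natCast_pow (Nat.cast_nonneg H) (by omega)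
  have h2 : (H : ℝ) * b ^ m = ((H : ℝ) ^ (1 / (m : ℝ)) * b) ^ m := by
    rw [mul_pow, h1]
  rw [h2, le_div_iff₀ hN]
  exact pow_le_pow_iff_left₀ (by positivity) (by positivity) (by omega)

theorem bounded_cov {n k N : ℕ} {P : (MvPolynomial (Fin (n + 2)) ℤ)[X]}
    (h : P ∈ BoundedCovers n k N) : P ∈ Pool.Agent.Run7.h443.HC.CovT (n + 1) N := by
  obtain ⟨⟨-, hr⟩, hdeg, hk⟩ := h
  refine ⟨hdeg, fun j => (hk j).1, fun j => (hk j).2, ?_⟩
  intro r h0
  apply hr r
  rw [← h0]
  unfold Pool.Agent.Y214.HB.toK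
  rw [eval_map_algebraMap]

theorem bounded_mono {n k N N' : ℕ} (hN : N ≤ N') {P : (MvPolynomial (Fin (n + 2)) ℤ)[X]}
    (h : P ∈ BoundedCovers n k N) : P ∈ BoundedCovers n k N' :=
  ⟨h.1, h.2.1.trans hN, fun j => ⟨(h.2.2 j).1.trans hN,
    fun u => ((h.2.2 j).2 u).trans (by exact_mod_cast hN)⟩⟩

theorem exists_bounded {n k : ℕ} {P : (MvPolynomial (Fin (n + 2)) ℤ)[X]} (h : P ∈ Covers n k) :
    ∃ N, P ∈ BoundedCovers n k N := by
  classical
  obtain ⟨m₁, h₁⟩ := Finset.exists_le (P.support.image fun k => (P.coeff k).totalDegree)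
  obtain ⟨m₂, h₂⟩ := Finset.exists_le (P.support.biUnion fun k => (P.coeff k).support.image
    fun u => ((P.coeff k).coeff u).natAbs)
  refine ⟨max P.natDegree (max m₁ m₂), h, le_max_left _ _, fun k => ?_⟩
  by_cases hk : k ∈ P.support
  · refine ⟨(h₁ _ (Finset.mem_image_of_mem _ hk)).trans
      ((le_max_left _ _).trans (le_max_right _ _)), fun u => ?_⟩
    by_cases hu : u ∈ (P.coeff k).support
    · have h3 := h₂ _ (Finset.mem_biUnion.mpr ⟨k, hk, Finset.mem_image_of_mem _ hu⟩)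
      have h4 : ((P.coeff k).coeff u).natAbs ≤ max P.natDegree (max m₁ m₂) :=
        h3.trans ((le_max_right _ _).trans (le_max_right _ _))
      rw [Int.abs_eq_natAbs]
      exact_mod_cast h4
    · rw [MvPolynomial.notMem_support_iff.mp hu, abs_zero]
      positivity
  · rw [Polynomial.notMem_support_iff.mp hk]
    refine ⟨by simp, fun u => ?_⟩
    rw [MvPolynomial.coeff_zero, abs_zero]
    positivity

theorem approx_of_wapc {n m k N H : ℕ} (hm : 1 ≤ m) (hN : 1 ≤ N)
    {F : MvPolynomial (Fin (n + 1)) ℤ}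
    (h : Pool.Agent.Run7.h443.HC.WAPC m k N (H : ℝ) F (Pool.Agent.Run7.h443.HC.PT (n + 1) N)) :
    ApproximationOutsideThinSets m k N H F := by
  intro z v y u hz hy hyF
  obtain ⟨x, w, hx0, hxF, hx1, ⟨c, hc, hx2, hx3⟩, hx4⟩ := h z v y u hz hy hyF
  refine ⟨x, w, hx0, hxF, hx1, ⟨c, hc, hx2, ?_⟩, fun P hP t => ?_⟩
  · rw [mul_comm m k, pow_mul] at hx3
    exact (rpow_iff hm (abs_nonneg _) (by positivity) (by exact_mod_cast hN) H).1 hx3
  · have h1 := Pool.Agent.Run7.h443.HC.pt_eval (hx4 t) (bounded_cov hP)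
    rw [eval_map] at h1
    exact h1

/-- Let `n ≥ 2`, `m ≥ 2`, `k ≥ 1` and `m k ≤ n + k`. There is a function `N` tending to infinity
such that 100% of the everywhere locally soluble smooth (Fano) cyclic covers `w ^ m = F(x)` of `ℙⁿ`,
`deg F = m k`, of height at most `H` have rational points within `1 / N(H)` of arbitrary local
points at the real place and at the primes up to `N(H)` and outside all the thin sets of complexity
at most `N(H)`. In particular the rational points of 100% of these varieties are not contained in a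
given thin set. -/
theorem result (n m k : ℕ) (hn : 2 ≤ n) (hm : 2 ≤ m) (hk : 1 ≤ k) (h : m * k ≤ n + k) :
    (∃ N : ℕ → ℕ, Tendsto N atTop atTop ∧ Tendsto (fun H : ℕ =>
      (({F | F ∈ Forms n (m * k) H ∧ Smooth F ∧ LocallySoluble m F ∧
        ApproximationOutsideThinSets m k (N H) H F} : Set _).ncard : ℝ) /
      (({F | F ∈ Forms n (m * k) H ∧ Smooth F ∧ LocallySoluble m F} : Set _).ncard : ℝ))
      atTop (𝓝 1)) ∧
    ∀ P ∈ Covers n k, Tendsto (fun H : ℕ =>
      (({F | F ∈ Forms n (m * k) H ∧ Smooth F ∧ LocallySoluble m F ∧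
        PointOutside m P F} : Set _).ncard : ℝ) /
      (({F | F ∈ Forms n (m * k) H ∧ Smooth F ∧ LocallySoluble m F} : Set _).ncard : ℝ))
      atTop (𝓝 1) := by
  have hD2 : 2 ≤ m * k := by nlinarith
  have hfin : ∀ H, (Forms n (m * k) H).Finite := fun H =>
    Pool.Agent.Y214.HB.fm_finite n (m * k) H
  have he : ∀ j, (fun _ : Fin 1 => m * k - 2) j + 2 = m * k := fun j => by
    show m * k - 2 + 2 = m * k
    omega
  have key : ∃ N : ℕ → ℕ, Tendsto N atTop atTop ∧ Tendsto (fun H : ℕ =>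
      (({F | F ∈ Forms n (m * k) H ∧ Smooth F ∧ LocallySoluble m F ∧
        ApproximationOutsideThinSets m k (N H) H F} : Set _).ncard : ℝ) /
      (({F | F ∈ Forms n (m * k) H ∧ Smooth F ∧ LocallySoluble m F} : Set _).ncard : ℝ))
      atTop (𝓝 1) := by
    obtain ⟨N, hN, hlim⟩ := Pool.Agent.Run7.h443.HC.main hn hm hk h
      (Pool.Agent.Y232.CS.bad_int (Fin (n + 1)) _) (Pool.Agent.Y407.C4.bad_real (Fin (n + 1)) _)
    refine ⟨N, hN, ?_⟩
    refine tendsto_of_tendsto_of_tendsto_of_le_of_le' hlim tendsto_const_nhds ?_ ?_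
    · filter_upwards [tendsto_atTop.mp hN 1] with H hH
      rw [ncard_iff he (fun f => Pool.Agent.Y697.C13.SmoothS f ∧ Pool.Agent.R465.CV.ElsW m f)
          (fun F => Smooth F ∧ LocallySoluble m F) (fun f => and_congr (smooth_iff f) Iff.rfl),
        ncard_iff he (fun f => Pool.Agent.Y697.C13.SmoothS f ∧ Pool.Agent.R465.CV.ElsW m f ∧
            Pool.Agent.Run7.h443.HC.WAPC m k (N H) (H : ℝ) (f 0)
              (Pool.Agent.Run7.h443.HC.PT (n + 1) (N H)))
          (fun F => Smooth F ∧ LocallySoluble m F ∧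
            Pool.Agent.Run7.h443.HC.WAPC m k (N H) (H : ℝ) F
              (Pool.Agent.Run7.h443.HC.PT (n + 1) (N H)))
          (fun f => and_congr (smooth_iff f) (and_congr Iff.rfl Iff.rfl))]
      apply div_le_div_of_nonneg_right _ (Nat.cast_nonneg _)
      have hsub : {F | F ∈ Forms n (m * k) H ∧ Smooth F ∧ LocallySoluble m F ∧
            Pool.Agent.Run7.h443.HC.WAPC m k (N H) (H : ℝ) F
              (Pool.Agent.Run7.h443.HC.PT (n + 1) (N H))} ⊆
          {F | F ∈ Forms n (m * k) H ∧ Smooth F ∧ LocallySoluble m F ∧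
            ApproximationOutsideThinSets m k (N H) H F} :=
        fun F hF => ⟨hF.1, hF.2.1, hF.2.2.1, approx_of_wapc (by omega) hH hF.2.2.2⟩
      exact_mod_cast Set.ncard_le_ncard hsub ((hfin H).subset (fun F hF => hF.1))
    · filter_upwards with H
      apply div_le_one_of_le₀ _ (Nat.cast_nonneg _)
      have hsub : {F | F ∈ Forms n (m * k) H ∧ Smooth F ∧ LocallySoluble m F ∧
            ApproximationOutsideThinSets m k (N H) H F} ⊆
          {F | F ∈ Forms n (m * k) H ∧ Smooth F ∧ LocallySoluble m F} :=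
        fun F hF => ⟨hF.1, hF.2.1, hF.2.2.1⟩
      exact (Nat.cast_le (α := ℝ)).mpr
        (Set.ncard_le_ncard hsub ((hfin H).subset (fun F hF => hF.1)))
  refine ⟨key, fun P hP => ?_⟩
  obtain ⟨N, hN, hlim⟩ := key
  obtain ⟨N₀, hN₀⟩ := exists_bounded hP
  refine tendsto_of_tendsto_of_tendsto_of_le_of_le' hlim tendsto_const_nhds ?_ ?_
  · filter_upwards [tendsto_atTop.mp hN N₀] with H hH
    apply div_le_div_of_nonneg_right _ (Nat.cast_nonneg _)
    have hsub : {F | F ∈ Forms n (m * k) H ∧ Smooth F ∧ LocallySoluble m F ∧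
          ApproximationOutsideThinSets m k (N H) H F} ⊆
        {F | F ∈ Forms n (m * k) H ∧ Smooth F ∧ LocallySoluble m F ∧ PointOutside m P F} := by
      rintro F ⟨hF, hs, hl, ha⟩
      refine ⟨hF, hs, hl, ?_⟩
      obtain ⟨y, u, hy0, hyF⟩ := hl.1
      have hl2 := hl.2
      choose z v hz hv using hl2
      obtain ⟨x, w, hx0, hxF, -, -, hx⟩ := ha z v y u (fun p _ => ⟨hz p, hv p⟩) hy0 hyF
      exact ⟨x, w, hx0, hxF, fun t => hx P (bounded_mono hH hN₀) t⟩
    exact_mod_cast Set.ncard_le_ncard hsub ((hfin H).subset (fun F hF => hF.1))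
  · filter_upwards with H
    apply div_le_one_of_le₀ _ (Nat.cast_nonneg _)
    have hsub : {F | F ∈ Forms n (m * k) H ∧ Smooth F ∧ LocallySoluble m F ∧
          PointOutside m P F} ⊆
        {F | F ∈ Forms n (m * k) H ∧ Smooth F ∧ LocallySoluble m F} :=
      fun F hF => ⟨hF.1, hF.2.1, hF.2.2.1⟩
    exact (Nat.cast_le (α := ℝ)).mpr
      (Set.ncard_le_ncard hsub ((hfin H).subset (fun F hF => hF.1)))

end Pool.Agent.Results.MP_87f965_ag.FanoCyclicCoversHilbert
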