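import Mathlib
import Pool.Agent.Run7.h28.ST.Thin
import Pool.Agent.Run7.h28.ST.Conv

/-!
# Sparse rational points and the Hilbert property

Let `X` be an integral projective variety over a number field `K` with a finite morphism
`x : X → ℙ^(n-1)`.  We consider the sparse points of `X`: the rational points `P` such that the
coordinates of `x (P)` are sums of boundedly many elements of a finitely generated group `Γ` and
`x (P)` is near the complement of the branch locus at one place.  We prove that they form a thin set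
(in the sense of Serre) up to the values `P (u)`, `u ∈ Γ ^ r`, of finitely many maps `P` from tori to
`X` which are dominant and do not factor through a cover of `X` of degree greater than one, even after
composition with `T ↦ ε T ^ N`, for every `N` and a suitable `ε ∈ Γ ^ r`.
-/

open Height NumberField IsDedekindDomain

namespace Pool.Agent.Results.MP_87f965_ag.ThinSparsePoints

/-- The places of a number field, infinite or finite. -/
abbrev Place (K : Type) [Field K] [NumberField K] : Type :=
  InfinitePlace K ⊕ HeightOneSpectrum (𝓞 K)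

/-- The absolute value of a place, as normalised in Mathlib. -/
noncomputable def absv {K : Type} [Field K] [NumberField K] : Place K → AbsoluteValue K ℝ
  | Sum.inl w => w.1
  | Sum.inr v => (FinitePlace.mk v).1

/-- The polynomial `F (x, y_i)` in the coordinates `x_l` and `y_i`. -/
noncomputable def eqn {K : Type} [Field K] {n m : ℕ} (F : Polynomial (MvPolynomial (Fin n) K))
    (i : Fin m) : MvPolynomial (Fin n ⊕ Fin m) K :=
  F.eval₂ (MvPolynomial.rename Sum.inl :
    MvPolynomial (Fin n) K →ₐ[K] MvPolynomial (Fin n ⊕ Fin m) K).toRingHom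
    (MvPolynomial.X (Sum.inr i))

/-- The polynomial `F (x, Y)`. -/
noncomputable def fibre {K : Type} [Field K] {n : ℕ} (x : Fin n → K)
    (F : Polynomial (MvPolynomial (Fin n) K)) : Polynomial K :=
  F.map (MvPolynomial.eval x)

/-! ### Covers and thin sets -/

/-- The polynomial `G (z, T)` over the coordinate ring has a root `a / b` in the field of fractions of
`K[z] / I`: there are polynomials `a`, `b` with `b ∉ I` and `∑ G_j a ^ j b ^ (q - j) ∈ I`, where `q` is
the degree of `G`. -/
def HasGenericRoot {K σ : Type} [Field K] (I : Ideal (MvPolynomial σ K))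
    (G : Polynomial (MvPolynomial σ K)) : Prop :=
  ∃ a b : MvPolynomial σ K, b ∉ I ∧
    ∑ j ∈ Finset.range (G.natDegree + 1), G.coeff j * a ^ j * b ^ (G.natDegree - j) ∈ I

/-- `G (z, T)` defines covers of degree greater than one of the projective variety `X` with the
homogeneous prime ideal `I`: `G` is monic in `T` and weighted homogeneous, where `T` has some weight
`e`, and it has no root in the function field of (the cone over) `X`. -/
def IsCover {K σ : Type} [Field K] (I : Ideal (MvPolynomial σ K))
    (G : Polynomial (MvPolynomial σ K)) : Prop :=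
  G.Monic ∧ (∃ e : ℕ, ∀ j ≤ G.natDegree, (G.coeff j).IsHomogeneous (e * (G.natDegree - j))) ∧
    ¬ HasGenericRoot I G

/-- The set `Z` of points of the projective variety `X` with the homogeneous prime ideal `I` is thin:
there are finitely many forms `g` which do not vanish on `X` and finitely many covers `G` of degree
greater than one such that at each point `z` of `Z` one of the forms `g` vanishes or one of the
polynomials `G (z, T)` has a root in `K`. -/
def IsThin {K σ : Type} [Field K] (I : Ideal (MvPolynomial σ K)) (Z : (σ → K) → Prop) : Prop :=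
  ∃ (a : Set (MvPolynomial σ K)) (c : Set (Polynomial (MvPolynomial σ K))), a.Finite ∧ c.Finite ∧
    (∀ g ∈ a, (∃ e, g.IsHomogeneous e) ∧ g ∉ I) ∧ (∀ G ∈ c, IsCover I G) ∧
    ∀ z, Z z → (∃ g ∈ a, MvPolynomial.eval z g = 0) ∨
      ∃ G ∈ c, ∃ t : K, (G.map (MvPolynomial.eval z)).eval t = 0

/-! ### Maps from tori -/

/-- Laurent polynomials in `r` variables over `K`. -/
abbrev Laurent (K : Type) [Field K] (r : ℕ) : Type := AddMonoidAlgebra K (Fin r → ℤ)

/-- The value `∑ c_m u ^ m` of the Laurent polynomial `P = ∑ c_m T ^ m` at a point `u` of the torus. -/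
noncomputable def value {K : Type} [Field K] {r : ℕ} (u : Fin r → Kˣ) (P : Laurent K r) : K :=
  ∑ m ∈ P.coeff.support, P.coeff m * ((∏ l, u l ^ m l : Kˣ) : K)

/-- The Laurent polynomial `P (ε T ^ N) = ∑ c_m ε ^ m T ^ (N m)` for `P = ∑ c_m T ^ m`. -/
noncomputable def twist {K : Type} [Field K] {r : ℕ} (ε : Fin r → Kˣ) (N : ℕ) (P : Laurent K r) :
    Laurent K r :=
  ∑ m ∈ P.coeff.support, AddMonoidAlgebra.single (fun l => (N : ℤ) * m l)
    (P.coeff m * ((∏ l, ε l ^ m l : Kˣ) : K))

/-- A tuple of Laurent polynomials, one for each coordinate: a map from a torus. -/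
structure TorusMap (K : Type) [Field K] (σ : Type) : Type where
  /-- the dimension of the torus -/
  rank : ℕ
  /-- the coordinates of the map -/
  coord : σ → Laurent K rank

/-- The map `T ↦ P (ε T ^ N)`. -/
noncomputable def TorusMap.twist {K : Type} [Field K] {σ : Type} (P : TorusMap K σ)
    (ε : Fin P.rank → Kˣ) (N : ℕ) : TorusMap K σ :=
  ⟨P.rank, fun i => ThinSparsePoints.twist ε N (P.coord i)⟩

/-- The image of the map lies on the variety with the ideal `I`. -/
def TorusMap.LiesOn {K : Type} [Field K] {σ : Type} (P : TorusMap K σ)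
    (I : Ideal (MvPolynomial σ K)) : Prop :=
  ∀ G ∈ I, MvPolynomial.aeval P.coord G = 0

/-- The image of the map to the projective space is dense in the projective variety with the
homogeneous ideal `I`: all forms which vanish on it belong to `I`. -/
def TorusMap.Dominates {K : Type} [Field K] {σ : Type} (P : TorusMap K σ)
    (I : Ideal (MvPolynomial σ K)) : Prop :=
  ∀ G : MvPolynomial σ K, (∃ e, G.IsHomogeneous e) → MvPolynomial.aeval P.coord G = 0 → G ∈ I

/-- The map lifts to the cover `G`: the polynomial `G (P, T)` has a root in the ring of Laurent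
polynomials. -/
def TorusMap.LiftsTo {K : Type} [Field K] {σ : Type} (P : TorusMap K σ)
    (G : Polynomial (MvPolynomial σ K)) : Prop :=
  ∃ t : Laurent K P.rank,
    (G.map (MvPolynomial.aeval P.coord : MvPolynomial σ K →ₐ[K] Laurent K P.rank).toRingHom).eval t = 0

/-- For every `N ≥ 1` there is `ε ∈ Γ ^ r` such that the map `T ↦ P (ε T ^ N)` lifts to no cover of
degree greater than one of the variety with the ideal `I`. -/
def TorusMap.IsStablyIrreducible {K : Type} [Field K] {σ : Type} (P : TorusMap K σ)
    (Γ : Subgroup Kˣ) (I : Ideal (MvPolynomial σ K)) : Prop :=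
  ∀ N : ℕ, 0 < N → ∃ ε : Fin P.rank → Kˣ, (∀ l, ε l ∈ Γ) ∧
    ∀ G, IsCover I G → ¬ (P.twist ε N).LiftsTo G

/-! ### Sparse points -/

section

variable {K : Type} [Field K] [NumberField K]

/-- `x` is a sum of `k` elements of `Γ` with coefficients in `K` of height at most `M`. -/
def IsSparse (Γ : Subgroup Kˣ) (k : ℕ) (M : ℝ) (x : K) : Prop :=
  ∃ (a : Fin k → K) (u : Fin k → Kˣ), (∀ r, mulHeight₁ (a r) ≤ M) ∧ (∀ r, u r ∈ Γ) ∧
    x = ∑ r, a r * (u r : K)

/-- After scaling, the polynomial `F` is `v`-adically close to a separable polynomial `E` of degree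
`q` over `K` with coefficients of height at most `M`: there are `a, z ∈ Γ` of height at most `M h ^ B`
such that the coefficients of `a F (z Y) - E (Y)` of index at most `q` are at most `M h ^ (-δ)` at
`v`.  See `near_of_close` for the main example. -/
def IsNearSeparable (Γ : Subgroup Kˣ) (v : Place K) (B δ M h : ℝ) (q : ℕ) (F : Polynomial K) :
    Prop :=
  ∃ (a z : Kˣ) (E : Polynomial K), a ∈ Γ ∧ z ∈ Γ ∧ E.natDegree = q ∧ E.Separable ∧
    (∀ j, mulHeight₁ (E.coeff j) ≤ M) ∧ mulHeight₁ (a : K) ≤ M * h ^ B ∧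
    mulHeight₁ (z : K) ≤ M * h ^ B ∧
    ∀ j ≤ q, absv v ((a : K) * (z : K) ^ j * F.coeff j - E.coeff j) ≤ M * h ^ (-δ)

/-- `z = (x : y)` is a `K`-point of the projective variety with the ideal `I`, the coordinates `x_l`
are sums of `k` elements of `Γ` with coefficients of height at most `M`, and the polynomials
`F_i (x, Y)` are near separable polynomials with respect to `h = ∏ H (x_l)`. -/
def IsSparsePoint (Γ : Subgroup Kˣ) (v : Place K) (k : ℕ) (B δ M : ℝ) {n m : ℕ}
    (F : Fin m → Polynomial (MvPolynomial (Fin n) K)) (I : Ideal (MvPolynomial (Fin n ⊕ Fin m) K))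
    (z : Fin n ⊕ Fin m → K) : Prop :=
  (∀ G ∈ I, MvPolynomial.eval z G = 0) ∧ (∀ l, IsSparse Γ k M (z (Sum.inl l))) ∧
  ∀ i, IsNearSeparable Γ v B δ M (∏ l, mulHeight₁ (z (Sum.inl l))) (F i).natDegree
    (fibre (fun l => z (Sum.inl l)) (F i))

end

lemma absv_eq {K : Type} [Field K] [NumberField K] (v : Place K) :
    absv v = Pool.Agent.W180.OP.av v := by
  cases v with
  | inl w => rfl
  | inr w => rfl

/-- The main example of polynomials which are near a separable polynomial: if the point `x` is
`v`-adically close to a fixed point `c` at which `F (c, Y)` is separable, then `F (x, Y)` is near a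
separable polynomial. -/
theorem near_of_close {K : Type} [Field K] [NumberField K] {n : ℕ}
    (F : Polynomial (MvPolynomial (Fin n) K)) (c : Fin n → K)
    (h1 : (fibre c F).natDegree = F.natDegree) (h2 : (fibre c F).Separable) (M : ℝ) :
    ∃ M' : ℝ, 1 ≤ M' ∧
      ∀ (Γ : Subgroup Kˣ) (v : Place K) (B δ h : ℝ) (x : Fin n → K), 0 ≤ B → 0 ≤ δ → 1 ≤ h →
        (∀ l, absv v (x l - c l) ≤ M * h ^ (-δ)) →
        IsNearSeparable Γ v B δ M' h F.natDegree (fibre x F) := by
  obtain ⟨M', h3, h4⟩ := Pool.Agent.Run7.h28.ST.near_fixed F c M h1 h2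
  refine ⟨M', h3, fun Γ v B δ h x hB hδ hh hx => ?_⟩
  rw [absv_eq] at hx
  have h5 := h4 Γ v B δ h x hB hδ hh hx
  unfold IsNearSeparable
  rw [absv_eq]
  exact h5

/-- Let `K` be a number field, `v` a place of `K`, `Γ` a finitely generated subgroup of `Kˣ`, `n`, `m`
and `k` natural numbers and `B`, `M` and `δ > 0` real numbers.  Let `X` be an integral projective
variety over `K` with the homogeneous coordinates `x_1, …, x_n`, `y_1, …, y_m` and the prime ideal
`I`, such that each `y_i` satisfies an equation `F_i (x, y_i) = 0` on `X`, where `F_i` is monic in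
`y_i`.  Let `Z` be the set of the points `(x : y)` of `X (K)` such that the `x_l` are sums of `k`
elements of `Γ` with coefficients of height at most `M` and the polynomials `F_i (x, Y)` are near
separable polynomials (`y` is arbitrary).

There are finitely many maps `P` from tori to `X` over `K` such that each `P` dominates `X` and is
stably irreducible with respect to `Γ` (for every `N ≥ 1` there is `ε ∈ Γ ^ r` such that
`T ↦ P (ε T ^ N)` lifts to no cover of `X` of degree greater than one), and such that the set of all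
points of `Z` which are not of the form `P (u)`, `u ∈ Γ ^ r`, for one of these maps `P` is thin.

In particular, if there is no dominant and stably irreducible map from a torus to `X`, then `Z` is
thin. -/
theorem result (K : Type) [Field K] [NumberField K] (v : Place K) (Γ : Subgroup Kˣ) (hΓ : Γ.FG)
    (n m k : ℕ) (B M δ : ℝ) (hδ : 0 < δ)
    (I : Ideal (MvPolynomial (Fin n ⊕ Fin m) K)) (_hI : I.IsPrime)
    (_hhom : ∀ G ∈ I, ∀ e, MvPolynomial.homogeneousComponent e G ∈ I)
    (F : Fin m → Polynomial (MvPolynomial (Fin n) K)) (hFm : ∀ i, (F i).Monic)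
    (hFI : ∀ i, eqn (F i) i ∈ I) :
    ∃ 𝓟 : Set (TorusMap K (Fin n ⊕ Fin m)), 𝓟.Finite ∧
      (∀ P ∈ 𝓟, P.LiesOn I ∧ P.Dominates I ∧ P.IsStablyIrreducible Γ I) ∧
      IsThin I fun z => IsSparsePoint Γ v k B δ M F I z ∧
        ¬ ∃ P ∈ 𝓟, ∃ u : Fin P.rank → Kˣ, (∀ l, u l ∈ Γ) ∧ ∀ i, z i = value u (P.coord i) := by
  classical
  have hone : ∀ x : Fin n → K, 1 ≤ ∏ l, mulHeight₁ (x l) := fun x => by
    have g2 := Finset.prod_le_prod (s := Finset.univ) (f := fun _ => (1 : ℝ))
      (g := fun l => mulHeight₁ (x l)) (fun _ _ => zero_le_one)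
      (fun l _ => one_le_mulHeight₁ (x l))
    rwa [Finset.prod_const_one] at g2
  obtain ⟨𝓣, t1, t2, t3⟩ := Pool.Agent.Run7.h28.ST.structureS n m k (max B 1) δ (max M 1) hδ Γ
    hΓ v I F hFm hFI
  have hse : ∀ z : Fin n ⊕ Fin m → K,
      Sum.elim (fun l => z (Sum.inl l)) (fun i => z (Sum.inr i)) = z := fun z => by
    funext i
    rcases i with l | i <;> rfl
  obtain ⟨𝓣', s1, s2, s3⟩ := Pool.Agent.Run7.h28.ST.thin_main t1 hΓ
    (A := fun g => (∃ e, g.IsHomogeneous e) ∧ g ∉ I) (C := IsCover I)
    (Z := IsSparsePoint Γ v k B δ M F I) (by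
      rintro z ⟨a2, a3, a5⟩
      have hx1 := hone fun l => z (Sum.inl l)
      have hx0 : (0 : ℝ) < ∏ l, mulHeight₁ (z (Sum.inl l)) := by linarith
      have hMB : M * (∏ l, mulHeight₁ (z (Sum.inl l))) ^ B ≤
          max M 1 * (∏ l, mulHeight₁ (z (Sum.inl l))) ^ (max B 1) :=
        mul_le_mul (le_max_left _ _) (Real.rpow_le_rpow_of_exponent_le hx1 (le_max_left _ _))
          (Real.rpow_pos_of_pos hx0 _).le (le_trans zero_le_one (le_max_right _ _))
      have hfin := t3 (fun l => z (Sum.inl l)) (fun i => z (Sum.inr i))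
        (∏ l, mulHeight₁ (z (Sum.inl l))) hx1 (by rw [hse]; exact a2) (fun l => by
          obtain ⟨a, u, g1, g2, g3⟩ := a3 l
          exact ⟨a, u, fun r => (g1 r).trans (le_max_left _ _), g2, g3⟩) (fun l => by
          have g1 : mulHeight₁ (z (Sum.inl l)) ≤ ∏ l, mulHeight₁ (z (Sum.inl l)) := by
            have g2 := Finset.prod_le_prod (s := Finset.univ.erase l) (f := fun _ => (1 : ℝ))
              (g := fun l => mulHeight₁ (z (Sum.inl l))) (fun _ _ => zero_le_one)
              (fun l _ => one_le_mulHeight₁ (z (Sum.inl l)))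
            rw [Finset.prod_const_one] at g2
            rw [← Finset.mul_prod_erase Finset.univ (fun l => mulHeight₁ (z (Sum.inl l)))
              (Finset.mem_univ l)]
            exact le_mul_of_one_le_right (mulHeight₁_pos _).le g2
          have g3 : (∏ l, mulHeight₁ (z (Sum.inl l))) ≤
              (∏ l, mulHeight₁ (z (Sum.inl l))) ^ (max B 1) := by
            conv_lhs => rw [← Real.rpow_one (∏ l, mulHeight₁ (z (Sum.inl l)))]
            exact Real.rpow_le_rpow_of_exponent_le hx1 (le_max_right _ _)
          exact (g1.trans g3).trans (le_mul_of_one_le_left (Real.rpow_pos_of_pos hx0 _).le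
            (le_max_right _ _))) (fun i => by
          obtain ⟨a, z', E, b1, b2, b3, b4, b6, b7, b8, b9⟩ := a5 i
          rw [absv_eq] at b9
          exact ⟨a, z', E, b1, b2, b3, b4, fun j => (b6 j).trans (le_max_left _ _), b7.trans hMB,
            b8.trans hMB, fun j hj => (b9 j hj).trans
            (mul_le_mul_of_nonneg_right (le_max_left _ _) (Real.rpow_pos_of_pos hx0 _).le)⟩)
      rw [hse] at hfin
      exact hfin)
  have htw : ∀ (P : Pool.Agent.Run7.h28.ST.Fam K (Fin n ⊕ Fin m)) (ε : Fin P.1 → Kˣ) (N : ℕ),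
      (fun i => Pool.Agent.Run7.h28.ST.tw ε N (P.2 i)) = fun i => twist ε N (P.2 i) := by
    intro P ε N
    funext i
    rw [Pool.Agent.Run7.h28.ST.tw_eq]
    rfl
  refine ⟨(fun P => (⟨P.1, P.2⟩ : TorusMap K (Fin n ⊕ Fin m))) '' 𝓣', (t1.subset s1).image _,
    ?_, ?_⟩
  · rintro _ ⟨P, hP, rfl⟩
    refine ⟨t2 P (s1 hP), fun G hG h0 => ?_, fun N hN => ?_⟩
    · by_contra hno
      exact (s2 P hP).1 G ⟨hG, hno⟩ h0
    · obtain ⟨ε, hε, h1⟩ := (s2 P hP).2 N hN
      refine ⟨ε, hε, fun G hG hlift => ?_⟩
      obtain ⟨t, ht⟩ := hlift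
      refine h1 G hG t ?_
      rw [htw]
      exact ht
  · obtain ⟨a, c, r1, r2, r3, r4, r5⟩ := s3
    refine ⟨a, c, r1, r2, r3, r4, fun z hz => r5 z ⟨hz.1, fun h => hz.2 ?_⟩⟩
    obtain ⟨P, hP, u, hu, hi⟩ := h
    refine ⟨_, ⟨P, hP, rfl⟩, u, hu, fun i => ?_⟩
    rw [hi i, Pool.Agent.Run7.h28.ST.evU_eq]
    rfl

end Pool.Agent.Results.MP_87f965_ag.ThinSparsePoints
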